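import Pool.Agent.H95.ESP.Stmts

/-!
# Board esp, row FIN
-/

set_option autoImplicit false

namespace ESP
open Finset

private theorem fin_zero_card {X : ℝ} (hX : 4 ≤ X) (S : Finset (ℤ × ℤ))
    (hS : ∀ q ∈ S, q ∈ Fam X ∧ q.1 = 0) : (S.card : ℝ) ≤ 3 * X ^ (1 / 2 : ℝ) := by
  classical
  have hX1 : (1 : ℝ) ≤ X := by linarith
  have hX0 : (0 : ℝ) < X := by linarith
  set M : ℤ := ⌊X ^ (1 / 2 : ℝ)⌋ with hM
  have hX12 : (1 : ℝ) ≤ X ^ (1 / 2 : ℝ) := Real.one_le_rpow hX1 (by norm_num)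
  have hM0 : 0 ≤ M := by
    rw [hM]
    exact Int.floor_nonneg.mpr (by linarith)
  have hMle : (M : ℝ) ≤ X ^ (1 / 2 : ℝ) := Int.floor_le _
  have hinj : S.card ≤ (Finset.Icc (-M) M).card := by
    apply Finset.card_le_card_of_injOn (fun q => q.2)
    · intro q hq
      have hq' : q ∈ S := hq
      obtain ⟨⟨_, _, hb⟩, _⟩ := hS q hq'
      have h1 : |(q.2 : ℝ)| ≤ X ^ (1 / 2 : ℝ) := by
        rw [← Real.sqrt_eq_rpow]
        apply Real.le_sqrt_of_sq_le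
        rw [sq_abs]
        have : (0 : ℝ) ≤ (q.2 : ℝ) ^ 2 := by positivity
        linarith
      have h2 : |q.2| ≤ M := by
        rw [hM]
        apply Int.le_floor.mpr
        rw [Int.cast_abs]
        exact h1
      have h3 := abs_le.mp h2
      simp only [Finset.coe_Icc, Set.mem_Icc]
      exact ⟨h3.1, h3.2⟩
    · intro q hq q' hq' he
      have h1 : q.1 = 0 := (hS q hq).2
      have h2 : q'.1 = 0 := (hS q' hq').2
      exact Prod.ext (h1.trans h2.symm) he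
  rw [Int.card_Icc] at hinj
  have h1 : (((M + 1 - -M).toNat : ℕ) : ℤ) = M + 1 - -M := Int.toNat_of_nonneg (by omega)
  have h2 : (((M + 1 - -M).toNat : ℕ) : ℝ) = (M : ℝ) + 1 - -(M : ℝ) := by
    exact_mod_cast h1
  calc (S.card : ℝ) ≤ (((M + 1 - -M).toNat : ℕ) : ℝ) := by exact_mod_cast hinj
    _ = (M : ℝ) + 1 - -(M : ℝ) := h2
    _ ≤ 3 * X ^ (1 / 2 : ℝ) := by linarith

private theorem fam_mono {X Y : ℝ} (h : X ≤ Y) : Fam X ⊆ Fam Y := by
  rintro q ⟨h1, h2, h3⟩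
  exact ⟨h1, h2.trans h, h3.trans h⟩

theorem FIN_thm (hFML : S_FML) (hEXA : S_EXA) (hSMR : S_SMR) : S_FIN := by
  classical
  refine ⟨hFML.1, hFML.2, ?_⟩
  intro α C ε hα hC hε
  obtain ⟨δ, X₀, K₁, hδ, hX₀, h1⟩ := hEXA α C ε hα hC hε
  obtain ⟨K₂, h2⟩ := hSMR ε hε
  set N : ℝ := ((Fam X₀).ncard : ℝ) with hN
  have hN0 : 0 ≤ N := by positivity
  refine ⟨δ, |K₁| + |K₂| + 3 + N, hδ, ?_⟩
  intro X hX a b hab hR
  have hX0 : (0 : ℝ) < X := by linarith
  have hX1 : (1 : ℝ) ≤ X := by linarith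
  have hα1 : 0 < 1 - 1 / α := by
    have : 1 / α < 1 := by
      rw [div_lt_one (by linarith)]
      exact hα
    linarith
  have hα2 : 1 - 1 / α < 1 := by
    have : 0 < 1 / α := by positivity
    linarith
  set e : ℝ := 5 / 6 - (1 - 1 / α) / 4 + ε with he
  have he0 : 7 / 12 + ε ≤ e := by
    rw [he]
    linarith
  have hXe : (1 : ℝ) ≤ X ^ e := Real.one_le_rpow hX1 (by linarith)
  have hfin : ({q | q ∈ Fam X ∧ ¬ Sep C α a b q.1 q.2} : Set (ℤ × ℤ)).Finite :=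
    (hFML.1 X).subset (fun q hq => hq.1)
  by_cases hXX : X₀ ≤ X
  · -- large `X`
    set U : Finset (ℤ × ℤ) := hfin.toFinset with hU
    have hUc : (({q | q ∈ Fam X ∧ ¬ Sep C α a b q.1 q.2} : Set (ℤ × ℤ)).ncard : ℝ) =
        (U.card : ℝ) := by
      rw [Set.ncard_eq_toFinset_card _ hfin]
    rw [hUc]
    have hmem : ∀ q, q ∈ U ↔ q ∈ Fam X ∧ ¬ Sep C α a b q.1 q.2 := by
      intro q
      rw [hU, Set.Finite.mem_toFinset]
      rfl
    set A : Finset (ℤ × ℤ) := U.filter (fun q => q.1 ≠ 0 ∧ X ^ (1 / 4 : ℝ) ≤ (R q.1 q.2 : ℝ))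
      with hA
    set B : Finset (ℤ × ℤ) := U.filter (fun q => (R q.1 q.2 : ℝ) ≤ X ^ (1 / 4 : ℝ)) with hB
    set Z : Finset (ℤ × ℤ) := U.filter (fun q => q.1 = 0) with hZ
    have hcov : U ⊆ A ∪ (B ∪ Z) := by
      intro q hq
      rw [Finset.mem_union, Finset.mem_union, hA, hB, hZ, Finset.mem_filter, Finset.mem_filter,
        Finset.mem_filter]
      by_cases c1 : q.1 = 0
      · right; right
        exact ⟨hq, c1⟩
      · by_cases c2 : X ^ (1 / 4 : ℝ) ≤ (R q.1 q.2 : ℝ)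
        · left
          exact ⟨hq, c1, c2⟩
        · right; left
          exact ⟨hq, (not_le.mp c2).le⟩
    have hAc : (A.card : ℝ) ≤ K₁ * X ^ e := by
      apply h1 X hXX a b hab hR
      intro q hq
      rw [hA, Finset.mem_filter] at hq
      obtain ⟨hq1, hq2, hq3⟩ := hq
      obtain ⟨hq4, hq5⟩ := (hmem q).mp hq1
      exact ⟨hq4, hq2, hq3, hq5⟩
    have hBc : (B.card : ℝ) ≤ K₂ * X ^ (7 / 12 + ε) := by
      apply h2 X hX
      intro q hq
      rw [hB, Finset.mem_filter] at hq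
      obtain ⟨hq1, hq2⟩ := hq
      obtain ⟨⟨hq3, hq4, hq5⟩, _⟩ := (hmem q).mp hq1
      exact ⟨hq3.1, hq4, hq5, hq2⟩
    have hZc : (Z.card : ℝ) ≤ 3 * X ^ (1 / 2 : ℝ) := by
      apply fin_zero_card hX
      intro q hq
      rw [hZ, Finset.mem_filter] at hq
      exact ⟨((hmem q).mp hq.1).1, hq.2⟩
    have hsum : (U.card : ℝ) ≤ A.card + (B.card + Z.card) := by
      have h5 : U.card ≤ A.card + (B.card + Z.card) :=
        (Finset.card_le_card hcov).trans ((Finset.card_union_le _ _).trans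
          (Nat.add_le_add_left (Finset.card_union_le _ _) _))
      exact_mod_cast h5
    have hp1 : X ^ (7 / 12 + ε) ≤ X ^ e := Real.rpow_le_rpow_of_exponent_le hX1 he0
    have hp2 : X ^ (1 / 2 : ℝ) ≤ X ^ e := Real.rpow_le_rpow_of_exponent_le hX1 (by linarith)
    have hp0 : 0 ≤ X ^ (7 / 12 + ε) := by positivity
    have hA2 : (A.card : ℝ) ≤ |K₁| * X ^ e :=
      hAc.trans (mul_le_mul_of_nonneg_right (le_abs_self _) (by linarith))
    have hB2 : (B.card : ℝ) ≤ |K₂| * X ^ e :=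
      hBc.trans ((mul_le_mul_of_nonneg_right (le_abs_self _) hp0).trans
        (mul_le_mul_of_nonneg_left hp1 (abs_nonneg _)))
    have hNX : 0 ≤ N * X ^ e := by positivity
    calc (U.card : ℝ) ≤ |K₁| * X ^ e + (|K₂| * X ^ e + 3 * X ^ e) := by linarith
      _ ≤ (|K₁| + |K₂| + 3 + N) * X ^ e := by linarith
  · -- small `X`
    have hXl : X ≤ X₀ := (not_le.mp hXX).le
    have hle : (({q | q ∈ Fam X ∧ ¬ Sep C α a b q.1 q.2} : Set (ℤ × ℤ)).ncard : ℝ) ≤ N := by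
      rw [hN]
      have h5 : ({q | q ∈ Fam X ∧ ¬ Sep C α a b q.1 q.2} : Set (ℤ × ℤ)).ncard ≤
          (Fam X₀).ncard :=
        Set.ncard_le_ncard (fun q hq => fam_mono hXl hq.1) (hFML.1 X₀)
      exact_mod_cast h5
    have h6 : N ≤ N * X ^ e := by
      nlinarith
    have h7 : 0 ≤ (|K₁| + |K₂| + 3) * X ^ e := by positivity
    calc (({q | q ∈ Fam X ∧ ¬ Sep C α a b q.1 q.2} : Set (ℤ × ℤ)).ncard : ℝ) ≤ N := hle
      _ ≤ (|K₁| + |K₂| + 3 + N) * X ^ e := by linarith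

end ESP
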