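import Pool.Agent.H95.ESP.Stmts

/-!
# Board esp, row SMR
-/

set_option autoImplicit false

namespace ESP
open Finset

private theorem rad_le (n : ℕ) :
    (∏ p ∈ n.primeFactors, p) ≤ 6 * ∏ p ∈ n.primeFactors.filter (fun p => 5 ≤ p), p := by
  rw [← Finset.prod_filter_mul_prod_filter_not n.primeFactors (fun p => 5 ≤ p), mul_comm]
  apply Nat.mul_le_mul_right
  have hsub : n.primeFactors.filter (fun p => ¬ 5 ≤ p) ⊆ ({2, 3} : Finset ℕ) := by
    intro p hp
    rw [Finset.mem_filter] at hp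
    have hpp := Nat.prime_of_mem_primeFactors hp.1
    have h5 : p < 5 := by omega
    interval_cases p
    · exact absurd hpp (by norm_num)
    · exact absurd hpp (by norm_num)
    · simp
    · simp
    · exact absurd hpp (by norm_num)
  calc (∏ p ∈ n.primeFactors.filter (fun p => ¬ 5 ≤ p), p)
      ≤ ∏ p ∈ ({2, 3} : Finset ℕ), p := by
        apply Finset.prod_le_prod_of_subset_of_one_le' hsub
        intro i hi _
        simp at hi
        omega
    _ = 6 := by simp

private theorem abs_le_cbrt {X : ℝ} (hX : 4 ≤ X) (a : ℤ) (h : 4 * |(a : ℝ)| ^ 3 ≤ X) :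
    |(a : ℝ)| ≤ X ^ (1 / 3 : ℝ) := by
  have h0 : (0 : ℝ) ≤ |(a : ℝ)| := abs_nonneg _
  have h1 : |(a : ℝ)| ^ 3 ≤ X := by
    have : 0 ≤ |(a : ℝ)| ^ 3 := by positivity
    linarith
  have h2 : (|(a : ℝ)| ^ 3) ^ (1 / 3 : ℝ) ≤ X ^ (1 / 3 : ℝ) :=
    Real.rpow_le_rpow (by positivity) h1 (by norm_num)
  have h3 : (|(a : ℝ)| ^ 3) ^ (1 / 3 : ℝ) = |(a : ℝ)| := by
    rw [← Real.rpow_natCast, ← Real.rpow_mul h0]
    norm_num
  rwa [h3] at h2

theorem SMR_thm (hRAD : S_RAD) : S_SMR := by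
  classical
  intro ε hε
  obtain ⟨K, hK, hR⟩ := hRAD (4 * ε / 5) (by positivity)
  set η : ℝ := 4 * ε / 5 with hη
  have hη0 : 0 < η := by positivity
  refine ⟨12 * (K * (2 ^ η * 6 ^ (1 + η))), ?_⟩
  intro X hX S hS
  have hX0 : (0 : ℝ) < X := by linarith
  have hX1 : (1 : ℝ) ≤ X := by linarith
  -- the set of the values of `a`
  set M : ℤ := ⌊X ^ (1 / 3 : ℝ)⌋ with hM
  have hX13 : (1 : ℝ) ≤ X ^ (1 / 3 : ℝ) := Real.one_le_rpow hX1 (by norm_num)
  have hM0 : 0 ≤ M := by
    rw [hM]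
    exact Int.floor_nonneg.mpr (by linarith)
  have hMle : (M : ℝ) ≤ X ^ (1 / 3 : ℝ) := Int.floor_le _
  set T : Finset ℕ := S.image (fun q => (D q.1 q.2).natAbs) with hT
  have hTc : (T.card : ℝ) ≤ K * (2 * X) ^ η * (6 * X ^ (1 / 4 : ℝ)) ^ (1 + η) := by
    apply hR
    · linarith
    · have : (1 : ℝ) ≤ X ^ (1 / 4 : ℝ) := Real.one_le_rpow hX1 (by norm_num)
      linarith
    · intro n hn
      rw [hT, Finset.mem_image] at hn
      obtain ⟨q, hq, rfl⟩ := hn
      obtain ⟨hD, ha, hb, hr⟩ := hS q hq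
      refine ⟨?_, ?_, ?_⟩
      · exact Nat.one_le_iff_ne_zero.mpr (by rwa [ne_eq, Int.natAbs_eq_zero])
      · have e1 : (((D q.1 q.2).natAbs : ℕ) : ℝ) = |((D q.1 q.2 : ℤ) : ℝ)| := by
          rw [← Int.cast_natCast, Int.natCast_natAbs, Int.cast_abs]
        rw [e1]
        have e2 : ((D q.1 q.2 : ℤ) : ℝ) = 4 * (q.1 : ℝ) ^ 3 + 27 * (q.2 : ℝ) ^ 2 := by
          unfold D
          push_cast
          ring
        rw [e2]
        have e3 : |4 * (q.1 : ℝ) ^ 3| = 4 * |(q.1 : ℝ)| ^ 3 := by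
          rw [abs_mul, abs_pow]
          norm_num
        have e4 : |27 * (q.2 : ℝ) ^ 2| = 27 * (q.2 : ℝ) ^ 2 := abs_of_nonneg (by positivity)
        calc |4 * (q.1 : ℝ) ^ 3 + 27 * (q.2 : ℝ) ^ 2|
            ≤ |4 * (q.1 : ℝ) ^ 3| + |27 * (q.2 : ℝ) ^ 2| := abs_add_le _ _
          _ ≤ 2 * X := by rw [e3, e4]; linarith
      · have h6 := rad_le (D q.1 q.2).natAbs
        have h7 : ((∏ p ∈ (D q.1 q.2).natAbs.primeFactors, p : ℕ) : ℝ) ≤
            6 * ((R q.1 q.2 : ℕ) : ℝ) := by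
          unfold R
          exact_mod_cast h6
        linarith
  -- the injection
  have hinj : S.card ≤ ((Finset.Icc (-M) M) ×ˢ ((Finset.univ : Finset Bool) ×ˢ
      ((Finset.univ : Finset Bool) ×ˢ T))).card := by
    apply Finset.card_le_card_of_injOn
      (fun q => (q.1, (decide (0 ≤ q.2), (decide (0 ≤ D q.1 q.2), (D q.1 q.2).natAbs))))
    · intro q hq
      have hq' : q ∈ S := hq
      obtain ⟨hD, ha, hb, hr⟩ := hS q hq'
      have h1 := abs_le_cbrt hX q.1 ha
      have h2 : |q.1| ≤ M := by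
        rw [hM]
        apply Int.le_floor.mpr
        rw [Int.cast_abs]
        exact h1
      have h3 := abs_le.mp h2
      simp only [Finset.coe_product, Set.mem_prod, Finset.mem_coe, Finset.mem_Icc,
        Finset.mem_univ, true_and]
      refine ⟨⟨h3.1, h3.2⟩, ?_⟩
      rw [hT, Finset.mem_image]
      exact ⟨q, hq', rfl⟩
    · intro q hq q' hq' he
      simp only [Prod.mk.injEq] at he
      obtain ⟨e1, e2, e3, e4⟩ := he
      have hDD : D q.1 q.2 = D q'.1 q'.2 := by
        rcases Int.natAbs_eq_natAbs_iff.mp e4 with h | h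
        · exact h
        · by_cases h0 : 0 ≤ D q.1 q.2
          · have h0' : 0 ≤ D q'.1 q'.2 := by
              rw [decide_eq_decide] at e3
              exact e3.mp h0
            omega
          · have h0' : ¬ 0 ≤ D q'.1 q'.2 := by
              rw [decide_eq_decide] at e3
              exact fun h9 => h0 (e3.mpr h9)
            omega
      have hbb : q.2 ^ 2 = q'.2 ^ 2 := by
        unfold D at hDD
        rw [e1] at hDD
        linarith
      have hb2 : q.2 = q'.2 := by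
        rw [decide_eq_decide] at e2
        rcases sq_eq_sq_iff_eq_or_eq_neg.mp hbb with h | h
        · exact h
        · by_cases h0 : 0 ≤ q.2
          · have := e2.mp h0
            omega
          · have : ¬ 0 ≤ q'.2 := fun h9 => h0 (e2.mpr h9)
            omega
      exact Prod.ext e1 hb2
  have hcard : ((Finset.Icc (-M) M) ×ˢ ((Finset.univ : Finset Bool) ×ˢ
      ((Finset.univ : Finset Bool) ×ˢ T))).card = (2 * M + 1).toNat * (2 * (2 * T.card)) := by
    rw [Finset.card_product, Finset.card_product, Finset.card_product, Int.card_Icc]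
    simp only [Finset.card_univ, Fintype.card_bool]
    congr 2
    ring
  rw [hcard] at hinj
  have hMR : (((2 * M + 1).toNat : ℕ) : ℝ) ≤ 3 * X ^ (1 / 3 : ℝ) := by
    have h1 : (((2 * M + 1).toNat : ℕ) : ℤ) = 2 * M + 1 := Int.toNat_of_nonneg (by omega)
    have h2 : (((2 * M + 1).toNat : ℕ) : ℝ) = 2 * (M : ℝ) + 1 := by
      exact_mod_cast h1
    rw [h2]
    linarith
  have hfin : (S.card : ℝ) ≤ (3 * X ^ (1 / 3 : ℝ)) * (4 *
      (K * (2 * X) ^ η * (6 * X ^ (1 / 4 : ℝ)) ^ (1 + η))) := by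
    calc (S.card : ℝ) ≤ (((2 * M + 1).toNat * (2 * (2 * T.card)) : ℕ) : ℝ) := by
          exact_mod_cast hinj
      _ = (((2 * M + 1).toNat : ℕ) : ℝ) * (4 * (T.card : ℝ)) := by
          push_cast
          ring
      _ ≤ (3 * X ^ (1 / 3 : ℝ)) * (4 * (K * (2 * X) ^ η * (6 * X ^ (1 / 4 : ℝ)) ^ (1 + η))) := by
          apply mul_le_mul hMR _ (by positivity) (by positivity)
          linarith
  refine hfin.trans (le_of_eq ?_)
  rw [Real.mul_rpow (by norm_num) hX0.le, Real.mul_rpow (by norm_num) (by positivity),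
    ← Real.rpow_mul hX0.le]
  have e5 : X ^ (7 / 12 + ε) = X ^ (1 / 3 : ℝ) * X ^ η * X ^ (1 / 4 * (1 + η)) := by
    rw [← Real.rpow_add hX0, ← Real.rpow_add hX0]
    congr 1
    rw [hη]
    ring
  rw [e5]
  ring

end ESP
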